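import Pool.Agent.Lib.MP_45c189_gt.Main

/-!
# The 2D hydrodynamic energy functional never satisfies the Palais–Smale condition

All definitions are in `Pool.Agent.Lib.MP_45c189_gt.Defs`.
-/

open scoped Manifold

namespace Pool.Agent.Results.MP_45c189_gt.NoPalaisSmale

open Pool.Agent.Lib.MP_45c189_gt

/-- Let `P` be a nonempty manifold of curves in `𝒟^s_μ(T²)` from the identity to `φ`, with a
continuous Finsler structure `ν` whose distance is complete (and defines the topology of `P`), such
that the energy `E` of the right-invariant `L²` metric is `C¹` on `P`, the evaluations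
`γ ↦ γ(t)(x)` are continuous and `P` is stable under smooth monotone changes of time and under left
composition with smooth loops. Then `E` does not satisfy the Palais–Smale condition on `P`. -/
theorem result {s : ℝ} {φ : SDiff s}
    {F : Type*} [NormedAddCommGroup F] [NormedSpace ℝ F]
    {P : Type*} [EMetricSpace P] [CompleteSpace P] [ChartedSpace F P] [IsManifold 𝓘(ℝ, F) 1 P]
    [Nonempty P] (Γ : PathManifold s φ F P)
    (ν : TangentNorm F P) (hν : ν.IsContinuous) (hd : ∀ p q : P, edist p q = ν.finslerDist p q) :
    ¬ PalaisSmale ν Γ.energy :=
  not_palaisSmale Γ ν hν fun p q => (hd p q).le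

end Pool.Agent.Results.MP_45c189_gt.NoPalaisSmale
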