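import Pool.Agent.Lib.MP_45c189_gt.Strong

/-!
# The 2D hydrodynamic energy functional at positive energy levels

All definitions are in `Pool.Agent.Lib.MP_45c189_gt.Defs` and
`Pool.Agent.Lib.MP_45c189_gt.PathSpace`.
-/

open Filter Topology MeasureTheory
open scoped Manifold

namespace Pool.Agent.Results.MP_45c189_gt.Oscillating

open Pool.Agent.Lib.MP_45c189_gt

/-- Let `P` be a path space from the identity to the identity (a manifold of curves in
`𝒟^s_μ(T²)`, containing the smooth ones, on which the velocity is a `C¹` map into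
`L²(T² × [0,1]; ℝ²)`) and `e > 0`, with any norms on the tangent spaces which, at the curves of
energy `e`, dominate the `L²([0,1]; H^σ)` norm, for some `σ > 0`, of the variation of the velocity,
in Lagrangian or in Eulerian form. Then there is a sequence `u` in `P` with `E(uₙ) = e` for all `n`
and `‖dE(uₙ)‖ → 0` (dual norm) such that for no subsequence and no time `t ∈ (0,1)` the maps
`uₙ(t)` converge in measure. -/
theorem result {s : ℝ} {φ : SDiff s} (hφ : ∀ x, φ x = x)
    {F : Type*} [NormedAddCommGroup F] [NormedSpace ℝ F]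
    {P : Type*} [TopologicalSpace P] [ChartedSpace F P] (Γ : PathSpace s φ F P)
    (ν : TangentNorm F P) {σ C e : ℝ} (hσ : 0 < σ) (he : 0 < e)
    (hdom : ∀ p, Γ.energy p = e → ∀ v,
      hsNormSq σ (Γ.dVelocity p v) ≤ ENNReal.ofReal ((C * ν.nrm p v) ^ 2) ∨
      hsNormSq σ (eulerian (Γ.curve p) (Γ.dVelocity p v)) ≤
        ENNReal.ofReal ((C * ν.nrm p v) ^ 2)) :
    ∃ u : ℕ → P, (∀ n, Γ.energy (u n) = e) ∧
      (∃ ε : ℕ → ℝ, Tendsto ε atTop (𝓝 0) ∧ ∀ n (v : TangentSpace 𝓘(ℝ, F) (u n)),
        |differential Γ.energy (u n) v| ≤ ε n * ν.nrm (u n) v) ∧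
      ∀ j : ℕ → ℕ, StrictMono j → ∀ t : unitInterval, 0 < (t : ℝ) → (t : ℝ) < 1 →
        ∀ f : T2 → T2, ¬ TendstoInMeasure volume (fun n x => Γ.curve (u (j n)) t x) atTop f :=
  Γ.exists_oscillating_sequence hφ ν hσ he hdom

end Pool.Agent.Results.MP_45c189_gt.Oscillating
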