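import Pool.Agent.Lib.MP_45c189_gt.Weak

/-!
# The 2D hydrodynamic energy functional near the constant curve

All definitions are in `Pool.Agent.Lib.MP_45c189_gt.Defs` and
`Pool.Agent.Lib.MP_45c189_gt.PathSpace`.
-/

open Filter Topology
open scoped Manifold

namespace Pool.Agent.Results.MP_45c189_gt.WeakNorms

open Pool.Agent.Lib.MP_45c189_gt

/-- Let `P` be a path space from the identity to the identity (a manifold of curves in
`𝒟^s_μ(T²)`, containing the smooth ones, on which the velocity is a `C¹` map into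
`L²(T² × [0,1]; ℝ²)`), with any norms on the tangent spaces which, at the curves of energy at most
`a`, dominate the `L²` norm of the variation of the velocity. Then there is a sequence `u` in `P`
with `E(uₙ) → 0` and `‖dE(uₙ)‖ → 0` (dual norm) no subsequence of which converges pointwise to a
curve of `P`. -/
theorem result {s : ℝ} {φ : SDiff s} (hφ : ∀ x, φ x = x)
    {F : Type*} [NormedAddCommGroup F] [NormedSpace ℝ F]
    {P : Type*} [TopologicalSpace P] [ChartedSpace F P] (Γ : PathSpace s φ F P)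
    (ν : TangentNorm F P) {a C : ℝ} (ha : 0 < a)
    (hdom : ∀ p, Γ.energy p ≤ a → ∀ v, ‖Γ.dVelocity p v‖ ≤ C * ν.nrm p v) :
    ∃ u : ℕ → P, Tendsto (fun n => Γ.energy (u n)) atTop (𝓝 0) ∧
      (∃ ε : ℕ → ℝ, Tendsto ε atTop (𝓝 0) ∧ ∀ n (v : TangentSpace 𝓘(ℝ, F) (u n)),
        |differential Γ.energy (u n) v| ≤ ε n * ν.nrm (u n) v) ∧
      ∀ j : ℕ → ℕ, StrictMono j → ∀ p : P, ¬ ∀ (t : unitInterval) (x : T2),
        Tendsto (fun n => Γ.curve (u (j n)) t x) atTop (𝓝 (Γ.curve p t x)) :=
  Γ.exists_bad_sequence hφ ν ha hdom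

end Pool.Agent.Results.MP_45c189_gt.WeakNorms
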